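import Mathlib

/-!
# MP_b8636a_al: the two length-five unitriangular products in `SL(2, ℤ)`

For the Chevalley group `SL(2, ℤ)` of type `A₁` neither of the two products `U⁻ U U⁻ U U⁻` and
`U U⁻ U U⁻ U` is contained in the other one. The matrix `(8, 3; 21, 8)` lies in the first product
only, its transpose in the second product only.
-/

set_option autoImplicit false

open scoped MatrixGroups Pointwise

namespace Pool.Agent.Results.MP_b8636a_al.FiveFactors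

/-- The group `U(A_{n-1}, R)` of upper unitriangular matrices in `SL(n, R)`, as a set. -/
def U (n : ℕ) (R : Type*) [CommRing R] : Set (Matrix.SpecialLinearGroup (Fin n) R) :=
  {g | (∀ i : Fin n, g i i = 1) ∧ ∀ i j : Fin n, j < i → g i j = 0}

/-- The group `U⁻(A_{n-1}, R)` of lower unitriangular matrices in `SL(n, R)`, as a set. -/
def Um (n : ℕ) (R : Type*) [CommRing R] : Set (Matrix.SpecialLinearGroup (Fin n) R) :=
  {g | (∀ i : Fin n, g i i = 1) ∧ ∀ i j : Fin n, i < j → g i j = 0}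

/-- upper elementary matrix -/
def u (x : ℤ) : SL(2, ℤ) := ⟨!![1, x; 0, 1], by simp [Matrix.det_fin_two]⟩

/-- lower elementary matrix -/
def l (x : ℤ) : SL(2, ℤ) := ⟨!![1, 0; x, 1], by simp [Matrix.det_fin_two]⟩

lemma coe_u (x : ℤ) : (u x : Matrix (Fin 2) (Fin 2) ℤ) = !![1, x; 0, 1] := rfl

lemma coe_l (x : ℤ) : (l x : Matrix (Fin 2) (Fin 2) ℤ) = !![1, 0; x, 1] := rfl

lemma mem_U {g : SL(2, ℤ)} : g ∈ U 2 ℤ ↔ ∃ x, g = u x := by
  constructor
  · rintro ⟨h1, h2⟩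
    refine ⟨g 0 1, ?_⟩
    ext i j
    fin_cases i <;> fin_cases j
    · simpa [u] using h1 0
    · simp [u]
    · simpa [u] using h2 1 0 (by decide)
    · simpa [u] using h1 1
  · rintro ⟨x, rfl⟩
    refine ⟨?_, ?_⟩
    · intro i
      fin_cases i <;> simp [u]
    · intro i j hij
      fin_cases i <;> fin_cases j <;> simp_all [u]

lemma mem_Um {g : SL(2, ℤ)} : g ∈ Um 2 ℤ ↔ ∃ x, g = l x := by
  constructor
  · rintro ⟨h1, h2⟩
    refine ⟨g 1 0, ?_⟩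
    ext i j
    fin_cases i <;> fin_cases j
    · simpa [l] using h1 0
    · simpa [l] using h2 0 1 (by decide)
    · simp [l]
    · simpa [l] using h1 1
  · rintro ⟨x, rfl⟩
    refine ⟨?_, ?_⟩
    · intro i
      fin_cases i <;> simp [l]
    · intro i j hij
      fin_cases i <;> fin_cases j <;> simp_all [l]

lemma bound (S T x : ℤ) (p q : ℤ) (hS : S = 8 + 21 * p) (hT : T = 8 + 21 * q)
    (hx : x * (S * T - 1) = 21 * (T - 1)) : p = 0 ∨ p = -1 := by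
  have hx0 : x ≠ 0 := by
    rintro rfl
    omega
  have h1 : (1 : ℤ) ≤ |x| := Int.one_le_abs hx0
  have h2 : |S * T - 1| ≤ 21 * |T - 1| := by
    have : |x| * |S * T - 1| = 21 * |T - 1| := by
      rw [← abs_mul, hx, abs_mul]
      norm_num
    nlinarith [abs_nonneg (S * T - 1)]
  have h3 : |S| * |T| ≤ |S * T - 1| + 1 := by
    rw [← abs_mul]
    calc |S * T| = |(S * T - 1) + 1| := by ring_nf
      _ ≤ |S * T - 1| + |1| := abs_add_le _ _
      _ = |S * T - 1| + 1 := by norm_num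
  have h4 : |T - 1| ≤ |T| + 1 := by
    calc |T - 1| ≤ |T| + |1| := abs_sub T 1
      _ = |T| + 1 := by norm_num
  have h5 : (8 : ℤ) ≤ |T| := by
    rw [le_abs]
    omega
  by_contra hcon
  push Not at hcon
  have h6 : (29 : ℤ) ≤ |S| := by
    rw [le_abs]
    omega
  nlinarith

/-- the arithmetic core: no integers `x, y, z` satisfy `x + z + x y z = 21`,
`y z ≡ 7` and `x y ≡ 7` modulo `21` -/
lemma core (x y z p q : ℤ) (h1 : x + z + x * y * z = 21) (h2 : y * z = 7 + 21 * p)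
    (h3 : x * y = 7 + 21 * q) : False := by
  obtain ⟨S, hS⟩ : ∃ S, S = 8 + 21 * p := ⟨_, rfl⟩
  obtain ⟨T, hT⟩ : ∃ T, T = 8 + 21 * q := ⟨_, rfl⟩
  have hS' : S = 1 + y * z := by omega
  have hT' : T = 1 + x * y := by omega
  have hx : x * (S * T - 1) = 21 * (T - 1) := by
    rw [hS', hT']
    linear_combination x * y * h1
  have hz : z * (T * S - 1) = 21 * (S - 1) := by
    rw [hS', hT']
    linear_combination z * y * h1
  rcases bound S T x p q hS hT hx with rfl | rfl <;>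
  rcases bound T S z q _ hT hS hz with rfl | rfl <;>
  · subst hS hT
    norm_num at hx
    omega

lemma not_mem (g : SL(2, ℤ)) (h : g = ⟨!![8, 3; 21, 8], by simp [Matrix.det_fin_two]⟩) :
    g ∉ U 2 ℤ * Um 2 ℤ * U 2 ℤ * Um 2 ℤ * U 2 ℤ := by
  intro hg
  obtain ⟨g4, hg4, e, he, h5⟩ := Set.mem_mul.1 hg
  obtain ⟨g3, hg3, d, hd, h4⟩ := Set.mem_mul.1 hg4
  obtain ⟨g2, hg2, c, hc, h3⟩ := Set.mem_mul.1 hg3
  obtain ⟨a, ha, b, hb, h2⟩ := Set.mem_mul.1 hg2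
  obtain ⟨a, rfl⟩ := mem_U.1 ha
  obtain ⟨b, rfl⟩ := mem_Um.1 hb
  obtain ⟨c, rfl⟩ := mem_U.1 hc
  obtain ⟨d, rfl⟩ := mem_Um.1 hd
  obtain ⟨e, rfl⟩ := mem_U.1 he
  rw [← h2] at h3
  rw [← h3] at h4
  rw [← h4, h] at h5
  have h6 := congrArg (fun g : SL(2, ℤ) => (g : Matrix (Fin 2) (Fin 2) ℤ)) h5
  simp only [Matrix.SpecialLinearGroup.coe_mul, coe_u, coe_l, Matrix.mul_fin_two] at h6
  have e00 := congrFun (congrFun h6 0) 0
  have e10 := congrFun (congrFun h6 1) 0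
  have e11 := congrFun (congrFun h6 1) 1
  simp only [Matrix.of_apply, Matrix.cons_val', Matrix.cons_val_zero, Matrix.cons_val_one,
    Matrix.cons_val_fin_one] at e00 e10 e11
  refine core b c d (-a) (-e) ?_ ?_ ?_
  · linear_combination e10
  · linear_combination e00 - a * e10
  · linear_combination e11 - e * e10

lemma mem (g : SL(2, ℤ)) (h : g = ⟨!![8, 3; 21, 8], by simp [Matrix.det_fin_two]⟩) :
    g ∈ Um 2 ℤ * U 2 ℤ * Um 2 ℤ * U 2 ℤ * Um 2 ℤ := by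
  have h1 : g = l 2 * u 1 * l 1 * u 1 * l 2 := by
    rw [h]
    ext i j
    simp only [Matrix.SpecialLinearGroup.coe_mul, coe_u, coe_l, Matrix.mul_fin_two]
    fin_cases i <;> fin_cases j <;> norm_num
  rw [h1]
  exact Set.mul_mem_mul (Set.mul_mem_mul (Set.mul_mem_mul (Set.mul_mem_mul
    (mem_Um.2 ⟨_, rfl⟩) (mem_U.2 ⟨_, rfl⟩)) (mem_Um.2 ⟨_, rfl⟩)) (mem_U.2 ⟨_, rfl⟩))
    (mem_Um.2 ⟨_, rfl⟩)

/-- transposition exchanges the two products -/
lemma transpose_mem (g : SL(2, ℤ)) (h : g.transpose ∈ Um 2 ℤ * U 2 ℤ * Um 2 ℤ * U 2 ℤ * Um 2 ℤ) :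
    g ∈ U 2 ℤ * Um 2 ℤ * U 2 ℤ * Um 2 ℤ * U 2 ℤ := by
  obtain ⟨g4, hg4, e, he, h5⟩ := Set.mem_mul.1 h
  obtain ⟨g3, hg3, d, hd, h4⟩ := Set.mem_mul.1 hg4
  obtain ⟨g2, hg2, c, hc, h3⟩ := Set.mem_mul.1 hg3
  obtain ⟨a, ha, b, hb, h2⟩ := Set.mem_mul.1 hg2
  obtain ⟨a, rfl⟩ := mem_Um.1 ha
  obtain ⟨b, rfl⟩ := mem_U.1 hb
  obtain ⟨c, rfl⟩ := mem_Um.1 hc
  obtain ⟨d, rfl⟩ := mem_U.1 hd
  obtain ⟨e, rfl⟩ := mem_Um.1 he
  rw [← h2] at h3
  rw [← h3] at h4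
  rw [← h4] at h5
  have h6 : g = u e * l d * u c * l b * u a := by
    have h7 : (g : Matrix (Fin 2) (Fin 2) ℤ) =
        ((l a * u b * l c * u d * l e : SL(2, ℤ)) : Matrix (Fin 2) (Fin 2) ℤ).transpose := by
      rw [h5]
      exact (Matrix.transpose_transpose _).symm
    apply Subtype.ext
    rw [h7]
    simp only [Matrix.SpecialLinearGroup.coe_mul, Matrix.transpose_mul]
    have hu : ∀ x, (u x : Matrix (Fin 2) (Fin 2) ℤ).transpose = l x := by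
      intro x
      ext i j
      fin_cases i <;> fin_cases j <;> simp [u, l]
    have hl : ∀ x, (l x : Matrix (Fin 2) (Fin 2) ℤ).transpose = u x := by
      intro x
      ext i j
      fin_cases i <;> fin_cases j <;> simp [u, l]
    rw [hu, hu, hl, hl, hl]
    simp only [Matrix.mul_assoc]
  rw [h6]
  exact Set.mul_mem_mul (Set.mul_mem_mul (Set.mul_mem_mul (Set.mul_mem_mul
    (mem_U.2 ⟨_, rfl⟩) (mem_Um.2 ⟨_, rfl⟩)) (mem_U.2 ⟨_, rfl⟩)) (mem_Um.2 ⟨_, rfl⟩))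
    (mem_U.2 ⟨_, rfl⟩)

/-- **Main result.** In `SL(2, ℤ)` neither of the products `U⁻ U U⁻ U U⁻` and `U U⁻ U U⁻ U` is
contained in the other one. -/
theorem result :
    ¬ (Um 2 ℤ * U 2 ℤ * Um 2 ℤ * U 2 ℤ * Um 2 ℤ ⊆ U 2 ℤ * Um 2 ℤ * U 2 ℤ * Um 2 ℤ * U 2 ℤ) ∧
    ¬ (U 2 ℤ * Um 2 ℤ * U 2 ℤ * Um 2 ℤ * U 2 ℤ ⊆ Um 2 ℤ * U 2 ℤ * Um 2 ℤ * U 2 ℤ * Um 2 ℤ) := by
  constructor
  · intro h
    exact not_mem _ rfl (h (mem _ rfl))
  · intro h
    -- the transpose of the matrix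
    have h1 : (⟨!![8, 21; 3, 8], by simp [Matrix.det_fin_two]⟩ : SL(2, ℤ)) ∈
        U 2 ℤ * Um 2 ℤ * U 2 ℤ * Um 2 ℤ * U 2 ℤ := by
      apply transpose_mem
      apply mem
      ext i j
      fin_cases i <;> fin_cases j <;> rfl
    have h2 := h h1
    refine not_mem _ rfl (transpose_mem _ ?_)
    have h3 : Matrix.SpecialLinearGroup.transpose
        (⟨!![8, 3; 21, 8], by simp [Matrix.det_fin_two]⟩ : SL(2, ℤ)) =
        ⟨!![8, 21; 3, 8], by simp [Matrix.det_fin_two]⟩ := by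
      ext i j
      fin_cases i <;> fin_cases j <;> rfl
    rw [h3]
    exact h2

end Pool.Agent.Results.MP_b8636a_al.FiveFactors
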